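import Mathlib
import Pool.Agent.H30.Alu

open NormedSpace

namespace Pool.Agent.Results.MP_a9e7a9_an.QuasiNormal

section Defs
variable {H : Type} [NormedAddCommGroup H] [InnerProductSpace ℂ H] [CompleteSpace H]

/-- `|T| = (T* T)^{1/2}` -/
noncomputable def absOp (T : H →L[ℂ] H) : H →L[ℂ] H := CFC.sqrt (star T * T)

/-- `T = V |T|` is the canonical polar decomposition -/
def IsPolar (T V : H →L[ℂ] H) : Prop :=
  T = V * absOp T ∧ V * star V * V = V ∧ ∀ x, V x = 0 ↔ T x = 0

/-- the `μ`-Aluthge transform `|T|^μ V |T|^{1-μ}` -/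
noncomputable def Δ (μ : ℝ) (T V : H →L[ℂ] H) : H →L[ℂ] H :=
  absOp T ^ μ * V * absOp T ^ (1 - μ)

/-- the mean `λ`-Aluthge transform -/
noncomputable def M (l : ℝ) (T V : H →L[ℂ] H) : H →L[ℂ] H :=
  (1 / 2 : ℂ) • (Δ l T V + Δ (1 - l) T V)

end Defs

section
variable {A : Type} [CStarAlgebra A] [PartialOrder A] [StarOrderedRing A]

noncomputable def pw (P : A) (c : ℝ) : A := cfc (fun x : ℝ => x ^ c) P

lemma cpw {c : ℝ} (hc : 0 ≤ c) : Continuous fun x : ℝ => x ^ c := Real.continuous_rpow_const hc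

lemma PKP {P V : A} (hP : 0 ≤ P) {l : ℝ} (h0 : 0 ≤ l) (h1 : l < 1)
    (h : pw P l * V * pw P (1 - l) + pw P (1 - l) * V * pw P l = 2 • (V * P)) :
    P * (P * V - V * P) * P = 0 := by
  have hs : IsSelfAdjoint P := .of_nonneg hP
  have h1' : 0 ≤ 1 - l := by linarith
  have step : ∀ ε : ℝ, 0 < ε → cfc (fun x : ℝ => max (x - ε) 0) P * (P * V - V * P) *
      cfc (fun x : ℝ => max (x - ε) 0) P = 0 := by
    intro ε hε
    set f : ℝ → ℝ := fun x => max (x - ε) 0 with hf
    set g : ℝ → ℝ := fun x => Real.log (max x ε) with hg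
    have fc : Continuous f := by fun_prop
    have gc : Continuous g := Continuous.log (by fun_prop) fun x => (hε.trans_le (le_max_right _ _)).ne'
    have hexp : ∀ c : ℝ, exp ((c : ℂ) • cfc g P) = cfc (fun x => Real.exp (c * g x)) P := by
      intro c
      rw [Complex.coe_smul, ← cfc_const_mul c g P, ← CFC.real_exp_eq_normedSpace_exp,
        ← cfc_comp' Real.exp _ P]
    have hfg : ∀ (c : ℝ) (x : ℝ), 0 ≤ x → Real.exp (c * g x) * f x = x ^ c * f x := by
      intro c x hx
      rcases le_total x ε with h | h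
      · simp [hf, h]
      · rw [hg]; simp only [max_eq_left h]
        rw [Real.rpow_def_of_pos (hε.trans_le h), mul_comm c]
    have hL : ∀ c : ℝ, 0 ≤ c → exp ((c : ℂ) • cfc g P) * cfc f P = cfc f P * pw P c := by
      intro c hc
      have := cpw hc
      rw [hexp, pw, ← cfc_mul _ _ P, ← cfc_mul _ _ P]
      refine cfc_congr fun x hx => ?_
      rw [hfg c x (spectrum_nonneg_of_nonneg hP hx), mul_comm]
    have hR : ∀ c : ℝ, 0 ≤ 1 - c → cfc f P * exp (-((c : ℂ) • cfc g P)) =
        pw P (1 - c) * (cfc f P * exp (((-1 : ℝ) : ℂ) • cfc g P)) := by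
      intro c hc
      have := cpw hc
      rw [← neg_smul, ← Complex.ofReal_neg, hexp, hexp, pw, ← cfc_mul _ _ P, ← cfc_mul _ _ P,
        ← cfc_mul _ _ P]
      refine cfc_congr fun x hx => ?_
      show _ = x ^ (1 - c) * _
      rw [← mul_assoc, ← hfg _ x (spectrum_nonneg_of_nonneg hP hx), mul_right_comm,
        ← Real.exp_add, mul_comm]
      congr 2; ring
    have p1 : pw P 1 = P := by simp [pw, cfc_id' ℝ P]
    have hc := Pool.Agent.H30.Alu.comm_of (cfc g P) (cfc f P * V * cfc f P) (cfc_predicate _ _)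
      l (1 - l) h0 (by linarith) (by
        have e0 := hR 0 (by norm_num)
        simp only [Complex.ofReal_zero, zero_smul, neg_zero, exp_zero, mul_one, sub_zero, p1] at e0
        have e : ∀ a b : A, a * (cfc f P * V * cfc f P) * b = (a * cfc f P) * V * (cfc f P * b) := by
          intros; noncomm_ring
        rw [e, e, hL l h0, hL _ h1', hR l h1', hR (1 - l) (by linarith), sub_sub_cancel]
        conv_rhs => rw [e0]
        rw [← e0]
        have := congrArg (fun Z => cfc f P * Z * (cfc f P * exp (((-1 : ℝ) : ℂ) • cfc g P))) h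
        simp only [mul_add, add_mul, mul_smul_comm, smul_mul_assoc, mul_assoc] at this ⊢
        rw [this, ← e0])
    have hc2 : Commute (exp (((1 : ℝ) : ℂ) • cfc g P)) (cfc f P * V * cfc f P) := by
      apply Commute.exp_left
      simpa using (show Commute _ _ from hc)
    have e1 := hL 1 zero_le_one
    rw [p1] at e1
    have e2 : cfc f P * exp (((1 : ℝ) : ℂ) • cfc g P) = P * cfc f P := by
      have := congrArg star e1
      rw [star_mul, star_mul, hs.star_eq, (cfc_predicate f P : IsSelfAdjoint _).star_eq, hexp,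
        (cfc_predicate _ P : IsSelfAdjoint _).star_eq, ← hexp] at this
      exact this
    have e3 := hc2.eq
    rw [← mul_assoc, ← mul_assoc, e1, mul_assoc _ (cfc f P) (exp _), e2] at e3
    rw [mul_sub, sub_mul, sub_eq_zero]
    simpa only [mul_assoc] using e3
  have lim : Filter.Tendsto (fun ε : ℝ => cfc (fun x : ℝ => max (x - ε) 0) P)
      (nhdsWithin 0 (Set.Ioi 0)) (nhds P) := by
    rw [tendsto_iff_norm_sub_tendsto_zero]
    refine squeeze_zero' (Filter.Eventually.of_forall fun _ => norm_nonneg _) ?_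
      (tendsto_nhdsWithin_of_tendsto_nhds Filter.tendsto_id)
    filter_upwards [self_mem_nhdsWithin] with ε hε
    have hε : 0 < ε := hε
    conv_lhs => congr; rw [show ∀ Z : A, Z - P = Z - cfc (fun x : ℝ => x) P from
      fun Z => by rw [cfc_id' ℝ P]]
    rw [← cfc_sub _ _ P]
    refine norm_cfc_le hε.le fun x hx => ?_
    have := spectrum_nonneg_of_nonneg hP hx
    rw [Real.norm_eq_abs, abs_le]
    rcases le_total (x - ε) 0 with h | h <;> simp only [max_eq_left, max_eq_right, h, id] <;>
      constructor <;> linarith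
  have := (lim.mul_const (P * V - V * P)).mul lim
  refine tendsto_nhds_unique this (tendsto_const_nhds.congr' ?_)
  filter_upwards [self_mem_nhdsWithin] with ε hε
  exact (step ε hε).symm

omit [PartialOrder A] [StarOrderedRing A] in
lemma pow_kill {B Y : A} (hB : IsSelfAdjoint B) (k : ℕ) (h : B ^ (k + 1) * Y = 0) : B * Y = 0 := by
  induction k with
  | zero => simpa using h
  | succ k ih =>
    apply ih
    rw [← CStarRing.star_mul_self_eq_zero_iff, pow_succ', mul_assoc, star_mul, hB.star_eq,
      mul_assoc, ← mul_assoc B (B ^ k), ← pow_succ', ← mul_assoc B, ← pow_succ', h, mul_zero]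

lemma pw_kill {P Y : A} (hP : 0 ≤ P) {c : ℝ} (hc : 0 < c) (h : P * Y = 0) : pw P c * Y = 0 := by
  have hs : IsSelfAdjoint P := .of_nonneg hP
  obtain ⟨k, hk⟩ := exists_nat_gt (1 / c)
  have hk' : 0 < c * (k + 1 : ℕ) - 1 := by
    rw [div_lt_iff₀ hc] at hk; push_cast; nlinarith
  apply pow_kill (cfc_predicate _ _) k
  have := cpw hc.le
  have := cpw hk'.le
  have e : pw P c ^ (k + 1) = pw P (c * (k + 1 : ℕ) - 1) * cfc (fun x : ℝ => x) P := by
    rw [pw, pw, ← cfc_pow _ _ P, ← cfc_mul _ _ P]
    refine cfc_congr fun x hx => ?_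
    have hx := spectrum_nonneg_of_nonneg hP hx
    show (x ^ c) ^ (k + 1) = x ^ _ * x
    rw [← Real.rpow_natCast, ← Real.rpow_mul hx, ← Real.rpow_add_one' hx (by linarith)]
    simp
  rw [cfc_id' ℝ P] at e
  show pw P c ^ (k + 1) * Y = 0
  rw [e, mul_assoc, h, mul_zero]

lemma main {P V : A} (hP : 0 ≤ P) (hV : ∀ Y, P * Y = 0 → V * Y = 0) {l : ℝ} (h0 : 0 ≤ l)
    (h1 : l < 1) (h : pw P l * V * pw P (1 - l) + pw P (1 - l) * V * pw P l = 2 • (V * P)) :
    P * V = V * P := by
  have hs : IsSelfAdjoint P := .of_nonneg hP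
  set K := P * V - V * P with hK
  have hKY : ∀ Y, P * Y = 0 → K * Y = 0 := fun Y hY => by
    rw [hK, sub_mul, mul_assoc, mul_assoc, hV Y hY, hY, mul_zero, mul_zero, sub_zero]
  have a1 : P * star (P * K) = 0 := by
    have := congrArg star (PKP hP h0 h1 h)
    rwa [star_mul, hs.star_eq, star_zero] at this
  have a2 : P * K = 0 := by
    rw [← CStarRing.mul_star_self_eq_zero_iff, mul_assoc, hKY _ a1, mul_zero]
  have a3 : ∀ c, 0 < c → star K * pw P c = 0 := fun c hc => by
    have := congrArg star (pw_kill hP hc a2)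
    have hq : IsSelfAdjoint (pw P c) := cfc_predicate _ P
    rwa [star_mul, hq.star_eq, star_zero] at this
  have a4 : star K * P = 0 := by
    have := congrArg star a2
    rwa [star_mul, hs.star_eq, star_zero] at this
  have a5 : star K * (V * P) = 0 := by
    have e := congrArg (star K * ·) h
    simp only [mul_add, ← mul_assoc, a3 (1 - l) (by linarith), zero_mul, add_zero, two_smul] at e
    rcases h0.eq_or_lt with rfl | h0
    · have p1 : pw P 1 = P := by simp [pw, cfc_id' ℝ P]
      have p0 : pw P 0 = 1 := by simp [pw, cfc_const_one ℝ P]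
      rw [sub_zero, p1, p0, mul_one] at e
      rw [← mul_assoc]; exact left_eq_add.1 e
    · rw [a3 l h0, zero_mul, zero_mul, ← two_smul ℂ] at e
      rw [← mul_assoc]; exact (smul_eq_zero.1 e.symm).resolve_left two_ne_zero
  rw [← sub_eq_zero, ← hK, ← CStarRing.star_mul_self_eq_zero_iff]
  conv_lhs => congr; rfl; rw [hK]
  rw [mul_sub, a5, ← mul_assoc, a4, zero_mul, sub_zero]

end

theorem result {H : Type} [NormedAddCommGroup H] [InnerProductSpace ℂ H] [CompleteSpace H]
    (l : ℝ) (h0 : 0 ≤ l) (h1 : l ≤ 1 / 2) (T V : H →L[ℂ] H) (hV : IsPolar T V) :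
    M l T V = T ↔ T * (star T * T) = (star T * T) * T := by
  obtain ⟨hT, -, hk⟩ := hV
  have hP : 0 ≤ absOp T := CFC.sqrt_nonneg _
  have hs : IsSelfAdjoint (absOp T) := .of_nonneg hP
  have hPP : absOp T * absOp T = star T * T := CFC.sqrt_mul_sqrt_self _ (star_mul_self_nonneg T)
  have hVY : ∀ Y, absOp T * Y = 0 → V * Y = 0 := by
    intro Y hY
    ext x
    apply (hk _).2
    have : T * Y = 0 := by rw [hT, mul_assoc, hY, mul_zero]
    exact congrArg (fun Z : H →L[ℂ] H => Z x) this
  have hpw : ∀ c : ℝ, absOp T ^ c = pw (absOp T) c := fun c => CFC.rpow_eq_cfc_real hP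
  unfold M Δ
  rw [sub_sub_cancel]
  simp only [hpw]
  rw [← hPP]
  have hsq : absOp T = CFC.sqrt (star T * T) := rfl
  generalize absOp T = P at *
  constructor
  · intro h
    have := main hP hVY h0 (by linarith) (by
      rw [← hT, ← h, ← Nat.cast_smul_eq_nsmul ℂ, smul_smul]; simp)
    have c : Commute P V := this
    have c2 : Commute T P := by rw [hT]; exact c.symm.mul_left (Commute.refl P)
    exact (c2.mul_right c2).eq
  · intro h
    have c1 : Commute (star T * T) T := by rw [← hPP]; exact h.symm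
    have c2 : Commute P T := by
      rw [hsq, CFC.sqrt]; exact c1.cfcₙ_nnreal _
    have a1 : P * star (P * V - V * P) = 0 := by
      have : (P * V - V * P) * P = 0 := by
        rw [sub_mul, mul_assoc, ← hT, c2.eq, sub_self]
      have := congrArg star this
      rwa [star_mul, hs.star_eq, star_zero] at this
    have a2 : Commute P V := by
      show P * V = V * P
      rw [← sub_eq_zero, ← CStarRing.mul_star_self_eq_zero_iff, sub_mul, mul_assoc, mul_assoc,
        hVY _ a1, a1, mul_zero, mul_zero, sub_zero]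
    have a3 : ∀ c : ℝ, 0 ≤ c → 0 ≤ 1 - c → pw P c * V * pw P (1 - c) = T := by
      intro c hc hc'
      have := cpw hc
      have := cpw hc'
      rw [pw, (a2.cfc_real _).eq, mul_assoc, pw, ← cfc_mul _ _ P, hT]
      congr 1
      conv_rhs => rw [← cfc_id' ℝ P]
      refine cfc_congr fun x hx => ?_
      show x ^ c * x ^ (1 - c) = x
      rw [← Real.rpow_add' (spectrum_nonneg_of_nonneg hP hx) (by simp)]; simp
    have a4 := a3 (1 - l) (by linarith) (by linarith)
    rw [sub_sub_cancel] at a4
    rw [a3 l h0 (by linarith), a4, ← two_smul ℂ, smul_smul]; simp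

end Pool.Agent.Results.MP_a9e7a9_an.QuasiNormal
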